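import Mathlib

/-!
The proportion of partitions of size at most `n` coming from numerical semigroups tends to `0`.
-/

namespace Pool.Agent.Results.MP_8c5ed8_co.ProportionZero

open Finset Filter

/-- The partition `φ(S)`: one part `#{s ∈ S : s < g}` for each gap `g` of `S`. -/
noncomputable def phi (S : Set ℕ) (h : Sᶜ.Finite) : Multiset ℕ :=
  h.toFinset.val.map (fun g => {s | s ∈ S ∧ s < g}.ncard)

/-- The partition with parts `l` is associated to a numerical semigroup. -/
def Assoc (l : Multiset ℕ) : Prop :=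
  ∃ (S : Set ℕ) (h : Sᶜ.Finite), 0 ∈ S ∧ (∀ a ∈ S, ∀ b ∈ S, a + b ∈ S) ∧ phi S h = l

/-- The number of partitions of size at most `n`. -/
def P (n : ℕ) : ℕ := ∑ m ∈ range (n + 1), Fintype.card m.Partition

/-- The number of partitions of size at most `n` associated to numerical semigroups. -/
noncomputable def S' (n : ℕ) : ℕ :=
  ∑ m ∈ range (n + 1), {l : m.Partition | Assoc l.parts}.ncard

/-! ### Structure of partitions associated to semigroups -/

section Struct

variable {S : Set ℕ}

/-- Number of elements of `S` below `g`. -/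
noncomputable def cc (S : Set ℕ) (g : ℕ) : ℕ := {s | s ∈ S ∧ s < g}.ncard

theorem fin_below (S : Set ℕ) (g : ℕ) : {s | s ∈ S ∧ s < g}.Finite :=
  (Set.finite_lt_nat g).subset fun _ h => h.2

theorem cc_mono (S : Set ℕ) {a b : ℕ} (h : a ≤ b) : cc S a ≤ cc S b :=
  Set.ncard_le_ncard (fun _ hx => ⟨hx.1, hx.2.trans_le h⟩) (fin_below S b)

theorem cc_lt {a b : ℕ} (ha : a ∈ S) (h : a < b) : cc S a < cc S b := by
  apply Set.ncard_lt_ncard _ (fin_below S b)
  have hsub : {s | s ∈ S ∧ s < a} ⊆ {s | s ∈ S ∧ s < b} := fun _ hx => ⟨hx.1, hx.2.trans h⟩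
  rw [Set.ssubset_iff_of_subset hsub]
  exact ⟨a, ⟨ha, h⟩, fun hx => lt_irrefl a hx.2⟩

/-- Counting gaps below an element `u` of `S`. -/
theorem count_sum (h : Sᶜ.Finite) {u : ℕ} (hu : u ∈ S) :
    ∑ i ∈ range (cc S u + 1), (phi S h).count i + cc S u = u := by
  classical
  have h1 : ∑ i ∈ range (cc S u + 1), (phi S h).count i =
      (h.toFinset.filter (fun g => g < u)).card := by
    have e1 : ∀ i, (phi S h).count i = (h.toFinset.filter (fun g => cc S g = i)).card := by
      intro i
      rw [phi, Multiset.count_map, Finset.card, Finset.filter_val]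
      congr 1
      apply Multiset.filter_congr
      intro g _
      rw [eq_comm]; rfl
    simp only [e1]
    rw [← Finset.card_biUnion]
    · congr 1
      ext g
      simp only [Finset.mem_biUnion, Finset.mem_range, Finset.mem_filter, Set.Finite.mem_toFinset,
        Set.mem_compl_iff]
      constructor
      · rintro ⟨i, hi, hg, hgi⟩
        refine ⟨hg, ?_⟩
        by_contra hcon
        have hne : u ≠ g := fun e => hg (e ▸ hu)
        have := cc_lt hu (lt_of_le_of_ne (not_lt.1 hcon) hne)
        omega
      · rintro ⟨hg, hgu⟩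
        exact ⟨cc S g, by have := cc_mono S hgu.le; omega, hg, rfl⟩
    · intro i _ j _ hij
      rw [Function.onFun, Finset.disjoint_left]
      intro g h1 h2
      simp only [Finset.mem_filter] at h1 h2
      exact hij (h1.2.symm.trans h2.2)
  rw [h1]
  have h2 : cc S u = ((range u).filter (fun s => s ∈ S)).card := by
    rw [cc, ← Set.ncard_coe_finset]
    congr 1
    ext s
    simp [and_comm]
  have h3 : (h.toFinset.filter (fun g => g < u)) = (range u).filter (fun s => ¬ s ∈ S) := by
    ext s
    simp [and_comm]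
  rw [h2, h3, add_comm, Finset.card_filter_add_card_filter_not, Finset.card_range]

theorem count_zero' (h : Sᶜ.Finite) (h0 : 0 ∈ S) : (phi S h).count 0 = 0 := by
  rw [Multiset.count_eq_zero, phi, Multiset.mem_map]
  rintro ⟨g, hg, hg0⟩
  have hg' : g ∉ S := by
    have : g ∈ h.toFinset := hg
    simpa using this
  have : 0 < g := Nat.pos_of_ne_zero fun e => hg' (e ▸ h0)
  have := cc_lt h0 this
  rw [cc, cc, hg0] at this
  omega

theorem assoc_struct {l : Multiset ℕ} (hl : Assoc l) :
    ∃ j, 2 ≤ j ∧ ∑ i ∈ Ico 2 (j + 1), l.count i + j = l.count 1 + 2 := by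
  classical
  obtain ⟨S, h, h0, hadd, rfl⟩ := hl
  -- least nonzero element
  have hex : ∃ s, s ∈ S ∧ 0 < s := by
    by_contra hcon
    push Not at hcon
    have : Set.Ioi 0 ⊆ Sᶜ := fun s hs hsS => absurd (hcon s hsS) (not_le.2 hs)
    exact (Set.Ioi_infinite 0) (h.subset this)
  obtain ⟨s1, ⟨hs1, hs1pos⟩, hmin⟩ : ∃ s1, (s1 ∈ S ∧ 0 < s1) ∧ ∀ s < s1, ¬ (s ∈ S ∧ 0 < s) :=
    ⟨Nat.find hex, Nat.find_spec hex, fun s hs => Nat.find_min hex hs⟩
  have hc1 : cc S s1 = 1 := by
    have : {s | s ∈ S ∧ s < s1} = {0} := by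
      ext s
      simp only [Set.mem_ofPred_eq, Set.mem_singleton_iff]
      constructor
      · rintro ⟨h1, h2⟩
        by_contra hs
        exact hmin s h2 ⟨h1, Nat.pos_of_ne_zero hs⟩
      · rintro rfl; exact ⟨h0, hs1pos⟩
    rw [cc, this, Set.ncard_singleton]
  have e1 := count_sum h hs1
  have e2 := count_sum h (hadd s1 hs1 s1 hs1)
  have hj : cc S s1 < cc S (s1 + s1) := cc_lt hs1 (by omega)
  rw [hc1] at e1 hj
  refine ⟨cc S (s1 + s1), hj, ?_⟩
  have e0 := count_zero' h h0
  rw [Finset.sum_range_succ, Finset.sum_range_one, e0] at e1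
  have e3 : ∑ i ∈ range (cc S (s1 + s1) + 1), (phi S h).count i =
      (phi S h).count 0 + (phi S h).count 1 + ∑ i ∈ Ico 2 (cc S (s1 + s1) + 1), (phi S h).count i := by
    rw [← Finset.sum_range_add_sum_Ico _ (by omega : 2 ≤ cc S (s1 + s1) + 1),
      Finset.sum_range_succ, Finset.sum_range_one]
  rw [e3, e0] at e2
  omega

end Struct

/-! ### Finsets of multisets -/

/-- Partitions of `n` as multisets. -/
def pm (n : ℕ) : Finset (Multiset ℕ) :=
  (Finset.univ : Finset n.Partition).image (fun l => l.parts)

theorem mem_pm {n : ℕ} {s : Multiset ℕ} : s ∈ pm n ↔ (∀ x ∈ s, 0 < x) ∧ s.sum = n := by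
  rw [pm, Finset.mem_image]
  constructor
  · rintro ⟨l, _, rfl⟩
    exact ⟨fun x hx => l.parts_pos hx, l.parts_sum⟩
  · rintro ⟨h1, h2⟩
    exact ⟨⟨s, fun {x} hx => h1 x hx, h2⟩, Finset.mem_univ _, rfl⟩

/-- The number of partitions of `n`. -/
def pp (n : ℕ) : ℕ := (pm n).card

theorem pp_eq (n : ℕ) : pp n = Fintype.card n.Partition := by
  rw [pp, pm, Finset.card_image_of_injective, Finset.card_univ]
  intro l l' h
  exact Nat.Partition.ext h

/-- Partitions of size at most `n` as multisets. -/
def tm (n : ℕ) : Finset (Multiset ℕ) := (range (n + 1)).biUnion pm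

theorem mem_tm {n : ℕ} {s : Multiset ℕ} : s ∈ tm n ↔ (∀ x ∈ s, 0 < x) ∧ s.sum ≤ n := by
  rw [tm, Finset.mem_biUnion]
  constructor
  · rintro ⟨m, hm, hs⟩
    rw [mem_pm] at hs
    rw [Finset.mem_range] at hm
    exact ⟨hs.1, by omega⟩
  · rintro ⟨h1, h2⟩
    exact ⟨s.sum, Finset.mem_range.2 (by omega), mem_pm.2 ⟨h1, rfl⟩⟩

theorem pm_disj : ((range 0 : Finset ℕ) : Set ℕ).PairwiseDisjoint pm ∧
    ∀ t : Set ℕ, t.PairwiseDisjoint pm := by
  have : ∀ t : Set ℕ, t.PairwiseDisjoint pm := by
    intro t i _ j _ hij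
    rw [Function.onFun, Finset.disjoint_left]
    intro s hs hs'
    rw [mem_pm] at hs hs'
    exact hij (hs.2.symm.trans hs'.2)
  exact ⟨this _, this⟩

theorem card_tm (n : ℕ) : (tm n).card = P n := by
  rw [tm, Finset.card_biUnion (fun i hi j hj hij => pm_disj.2 Set.univ (Set.mem_univ i)
    (Set.mem_univ j) hij), P]
  exact Finset.sum_congr rfl fun m _ => pp_eq m

theorem P_eq (n : ℕ) : P n = ∑ m ∈ range (n + 1), pp m :=
  Finset.sum_congr rfl fun m _ => (pp_eq m).symm

open Classical in
theorem S'_eq (n : ℕ) : S' n = ((tm n).filter Assoc).card := by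
  rw [S', tm, Finset.filter_biUnion, Finset.card_biUnion]
  · refine Finset.sum_congr rfl fun m _ => ?_
    rw [pm, Finset.filter_image, Finset.card_image_of_injective, ← Set.ncard_coe_finset]
    · congr 1
      ext l
      simp
    · intro l l' h
      exact Nat.Partition.ext h
  · intro i hi j hj hij
    exact Finset.disjoint_filter_filter (pm_disj.2 Set.univ (Set.mem_univ i)
      (Set.mem_univ j) hij)

theorem pp_mono : Monotone pp := by
  apply monotone_nat_of_le_succ
  intro n
  apply Finset.card_le_card_of_injOn (fun s => 1 ::ₘ s)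
  · intro s hs
    rw [Finset.mem_coe, mem_pm] at hs ⊢
    refine ⟨fun x hx => ?_, ?_⟩
    · rcases Multiset.mem_cons.1 hx with h | h
      · omega
      · exact hs.1 x h
    · rw [Multiset.sum_cons, hs.2]; omega
  · intro s _ t _ h
    exact (Multiset.cons_inj_right 1).1 h

theorem P_succ_add (n K : ℕ) : P n + K * pp n ≤ P (n + K) := by
  induction K with
  | zero => simp
  | succ K ih =>
    have : P (n + (K + 1)) = P (n + K) + pp (n + K + 1) := by
      rw [P_eq, P_eq, ← Nat.add_assoc, Finset.sum_range_succ]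
    rw [this]
    have h2 := pp_mono (by omega : n ≤ n + K + 1)
    rw [add_mul]
    omega

/-! ### Case A -/

theorem caseA (n j : ℕ) :
    ((tm n).filter (fun s => ∑ i ∈ Ico 2 (j + 1), s.count i + j = s.count 1 + 2)).card ≤ pp n := by
  apply Finset.card_le_card_of_injOn
    (fun s => s.filter (fun x => x ≠ 1) + Multiset.replicate (n - (s.filter (fun x => x ≠ 1)).sum) 1)
  · intro s hs
    rw [Finset.mem_coe, Finset.mem_filter, mem_tm] at hs
    obtain ⟨⟨h1, h2⟩, _⟩ := hs
    rw [Finset.mem_coe, mem_pm]
    constructor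
    · intro x hx
      rw [Multiset.mem_add] at hx
      rcases hx with hx | hx
      · exact h1 x (Multiset.mem_of_mem_filter hx)
      · rw [Multiset.eq_of_mem_replicate hx]; omega
    · have h3 : (s.filter (fun x => x ≠ 1)).sum ≤ s.sum := by
        conv_rhs => rw [← Multiset.filter_add_not (fun x => x ≠ 1) s, Multiset.sum_add]
        exact Nat.le_add_right _ _
      rw [Multiset.sum_add, Multiset.sum_replicate, smul_eq_mul]
      omega
  · intro s hs t ht hst
    rw [Finset.mem_coe, Finset.mem_filter] at hs ht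
    simp only at hst
    have key : ∀ i, i ≠ 1 → s.count i = t.count i := by
      intro i hi
      have := congrArg (Multiset.count i) hst
      rw [Multiset.count_add, Multiset.count_add, Multiset.count_replicate,
        Multiset.count_replicate, if_neg hi.symm, if_neg hi.symm,
        Multiset.count_filter_of_pos (p := fun x => x ≠ 1) hi,
        Multiset.count_filter_of_pos (p := fun x => x ≠ 1) hi] at this
      simpa using this
    ext i
    by_cases hi : i = 1
    · subst hi
      have h3 : ∑ i ∈ Ico 2 (j + 1), s.count i = ∑ i ∈ Ico 2 (j + 1), t.count i := by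
        apply Finset.sum_congr rfl
        intro i hi
        rw [Finset.mem_Ico] at hi
        exact key i (by omega)
      have h1 := hs.2
      have h2 := ht.2
      omega
    · exact key i hi

/-! ### Case B -/

theorem sum_decomp {K : ℕ} (hK : 3 ≤ K) (s : Multiset ℕ) (hs : ∀ x ∈ s, 0 < x) :
    s.sum = s.count 1 + (s.filter (fun x => 2 ≤ x ∧ x < K)).sum + K * s.count K +
      (s.filter (fun x => K < x)).sum := by
  induction s using Multiset.induction_on with
  | empty => simp
  | cons a s ih =>
    have h1 := ih (fun x hx => hs x (Multiset.mem_cons_of_mem hx))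
    have ha := hs a (Multiset.mem_cons_self a s)
    rw [Multiset.sum_cons, h1, Multiset.count_cons, Multiset.count_cons, Multiset.filter_cons,
      Multiset.filter_cons, Multiset.sum_add, Multiset.sum_add]
    rcases lt_trichotomy a 1 with h | h | h
    · omega
    · subst h
      rw [if_pos rfl, if_neg (by omega : ¬ K = 1), if_neg (by omega), if_neg (by omega)]
      simp only [Multiset.sum_zero]
      ring
    · rcases lt_trichotomy a K with h' | h' | h'
      · rw [if_neg (by omega), if_neg (by omega : ¬ K = a), if_pos (by omega), if_neg (by omega)]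
        simp only [Multiset.sum_singleton, Multiset.sum_zero]
        ring
      · subst h'
        rw [if_neg (by omega), if_pos rfl, if_neg (by omega), if_neg (by omega)]
        simp only [Multiset.sum_zero]
        ring
      · rw [if_neg (by omega), if_neg (by omega : ¬ K = a), if_neg (by omega), if_pos h']
        simp only [Multiset.sum_singleton, Multiset.sum_zero]
        ring

theorem count_Ico (K : ℕ) (s : Multiset ℕ) :
    ∑ i ∈ Ico 2 K, s.count i = Multiset.card (s.filter (fun x => 2 ≤ x ∧ x < K)) := by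
  induction s using Multiset.induction_on with
  | empty => simp
  | cons a s ih =>
    simp only [Multiset.count_cons]
    rw [Finset.sum_add_distrib, ih, Finset.sum_ite_eq', Multiset.filter_cons, Multiset.card_add]
    by_cases h : 2 ≤ a ∧ a < K
    · rw [if_pos (Finset.mem_Ico.2 h), if_pos h]
      simp only [Multiset.card_singleton]
      omega
    · rw [if_neg (by rw [Finset.mem_Ico]; exact h), if_neg h]
      simp

/-- The map of case B. -/
def fB (K n : ℕ) (s : Multiset ℕ) : Multiset ℕ :=
  Multiset.replicate (s.count 1 - ∑ i ∈ Ico 2 K, s.count i) 1 +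
    (s.filter (fun x => 2 ≤ x ∧ x < K)).map (fun x => x + 1) +
    s.filter (fun x => K < x) + Multiset.replicate ((n - s.sum) / 2) 2

theorem fB_sum {K n : ℕ} (hK : 3 ≤ K) {s : Multiset ℕ} (hs : ∀ x ∈ s, 0 < x)
    (hB : ∑ i ∈ Ico 2 K, s.count i ≤ s.count 1) :
    (fB K n s).sum + K * s.count K = s.sum + 2 * ((n - s.sum) / 2) := by
  have h1 := sum_decomp hK s hs
  have h2 := count_Ico K s
  rw [fB, Multiset.sum_add, Multiset.sum_add, Multiset.sum_add, Multiset.sum_replicate,
    Multiset.sum_replicate, Multiset.sum_map_add]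
  simp only [smul_eq_mul, mul_one, Multiset.map_const', Multiset.map_id',
    Multiset.sum_replicate]
  rw [← h2]
  generalize (s.filter (fun x => 2 ≤ x ∧ x < K)).sum = a at *
  generalize (s.filter (fun x => K < x)).sum = b at *
  generalize K * s.count K = c at *
  generalize (n - s.sum) / 2 = d at *
  omega

theorem count_fB_low {K n : ℕ} (_hK : 3 ≤ K) {s : Multiset ℕ} {i : ℕ} (hi : 2 ≤ i)
    (hi' : i < K) : (fB K n s).count (i + 1) = s.count i := by
  rw [fB, Multiset.count_add, Multiset.count_add, Multiset.count_add,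
    Multiset.count_replicate, Multiset.count_replicate, if_neg (by omega), if_neg (by omega),
    Multiset.count_filter, if_neg (by omega), Multiset.count_map_eq_count' _ _
      (fun a b h => Nat.succ_injective h), Multiset.count_filter, if_pos ⟨hi, hi'⟩]
  omega

theorem count_fB_high {K n : ℕ} (_hK : 3 ≤ K) {s : Multiset ℕ} {i : ℕ} (hi : K < i) :
    (fB K n s).count i = s.count i := by
  obtain ⟨i, rfl⟩ := Nat.exists_eq_add_of_le' (by omega : 1 ≤ i)
  rw [fB, Multiset.count_add, Multiset.count_add, Multiset.count_add,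
    Multiset.count_replicate, Multiset.count_replicate, if_neg (by omega), if_neg (by omega),
    Multiset.count_filter, if_pos hi, Multiset.count_map_eq_count' _ _
      (fun a b h => Nat.succ_injective h), Multiset.count_filter, if_neg (by omega)]
  omega

theorem count_fB_one {K n : ℕ} (hK : 3 ≤ K) (s : Multiset ℕ) :
    (fB K n s).count 1 = s.count 1 - ∑ i ∈ Ico 2 K, s.count i := by
  have h0 : ((s.filter (fun x => 2 ≤ x ∧ x < K)).map (fun x => x + 1)).count (0 + 1) = 0 := by
    rw [Multiset.count_map_eq_count' _ _ (fun a b h => Nat.succ_injective h),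
      Multiset.count_filter, if_neg (by omega)]
  have h1 : (s.filter (fun x => K < x)).count 1 = 0 := by
    rw [Multiset.count_filter, if_neg (by omega)]
  rw [fB, Multiset.count_add, Multiset.count_add, Multiset.count_add, h1,
    Multiset.count_replicate, Multiset.count_replicate, if_pos rfl, if_neg (by omega)]
  simp only [zero_add] at h0
  rw [h0]
  omega

theorem caseB (n K : ℕ) (hK : 3 ≤ K) :
    ((tm n).filter (fun s => ∑ i ∈ Ico 2 K, s.count i ≤ s.count 1)).card ≤
      ∑ t ∈ range (n / K + 1), 2 * pp (n - K * t) := by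
  have h1 : ((tm n).filter (fun s => ∑ i ∈ Ico 2 K, s.count i ≤ s.count 1)).card ≤
      ((range (n / K + 1)).sigma (fun t => pm (n - K * t) ∪ pm (n - K * t - 1))).card := by
    apply Finset.card_le_card_of_injOn (fun s => (⟨s.count K, fB K n s⟩ : Σ _ : ℕ, Multiset ℕ))
    · intro s hs
      rw [Finset.mem_coe, Finset.mem_filter, mem_tm] at hs
      obtain ⟨⟨h1, h2⟩, h3⟩ := hs
      have h4 := fB_sum (n := n) hK h1 h3
      have h5 := sum_decomp hK s h1
      rw [Finset.mem_coe, Finset.mem_sigma, Finset.mem_range, Finset.mem_union, mem_pm, mem_pm]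
      simp only
      have h6 : K * s.count K ≤ n := by omega
      have h7 : s.count K ≤ n / K := by
        rw [Nat.le_div_iff_mul_le (by omega), mul_comm]; exact h6
      refine ⟨by omega, ?_⟩
      have hpos : ∀ x ∈ fB K n s, 0 < x := by
        intro x hx
        simp only [fB, Multiset.mem_add, Multiset.mem_map, Multiset.mem_filter] at hx
        rcases hx with ((hx | ⟨y, _, hy⟩) | ⟨hx, _⟩) | hx
        · rw [Multiset.eq_of_mem_replicate hx]; omega
        · omega
        · exact h1 x hx
        · rw [Multiset.eq_of_mem_replicate hx]; omega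
      rcases Nat.mod_two_eq_zero_or_one (n - s.sum) with h8 | h8
      · left
        exact ⟨hpos, by omega⟩
      · right
        exact ⟨hpos, by omega⟩
    · intro s hs t ht hst
      rw [Finset.mem_coe, Finset.mem_filter, mem_tm] at hs ht
      obtain ⟨⟨s1, s2⟩, s3⟩ := hs
      obtain ⟨⟨t1, t2⟩, t3⟩ := ht
      simp only [Sigma.mk.injEq, heq_eq_eq] at hst
      obtain ⟨e1, e2⟩ := hst
      have low : ∀ i, 2 ≤ i → i < K → s.count i = t.count i := by
        intro i hi hi'
        rw [← count_fB_low (n := n) hK hi hi', e2, count_fB_low hK hi hi']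
      have hsum : ∑ i ∈ Ico 2 K, s.count i = ∑ i ∈ Ico 2 K, t.count i := by
        apply Finset.sum_congr rfl
        intro i hi
        rw [Finset.mem_Ico] at hi
        exact low i hi.1 hi.2
      ext i
      rcases Nat.lt_or_ge i 2 with h | h
      · interval_cases i
        · rw [Multiset.count_eq_zero_of_notMem (fun h => lt_irrefl 0 (s1 0 h)),
            Multiset.count_eq_zero_of_notMem (fun h => lt_irrefl 0 (t1 0 h))]
        · have a1 := count_fB_one (n := n) hK s
          have a2 := count_fB_one (n := n) hK t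
          rw [e2] at a1
          omega
      · rcases lt_trichotomy i K with h' | h' | h'
        · exact low i h h'
        · rw [h']; exact e1
        · rw [← count_fB_high (n := n) hK h', e2, count_fB_high hK h']
  refine h1.trans ?_
  rw [Finset.card_sigma]
  apply Finset.sum_le_sum
  intro t _
  refine (Finset.card_union_le _ _).trans ?_
  have h2 : (pm (n - K * t)).card = pp (n - K * t) := rfl
  have h3 : (pm (n - K * t - 1)).card = pp (n - K * t - 1) := rfl
  have h4 := pp_mono (by omega : n - K * t - 1 ≤ n - K * t)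
  omega

theorem sumQ (K : ℕ) (hK : 1 ≤ K) : ∀ n,
    K * ∑ t ∈ range (n / K + 1), pp (n - K * t) ≤ K * pp n + P n := by
  intro n
  induction n using Nat.strong_induction_on with
  | _ n ih =>
    rcases Nat.lt_or_ge n K with h | h
    · rw [Nat.div_eq_of_lt h]
      simp
    · obtain ⟨m, rfl⟩ := Nat.exists_eq_add_of_le' h
      have h1 := ih m (by omega)
      have h2 : (m + K) / K = m / K + 1 := Nat.add_div_right m (by omega)
      rw [h2, Finset.sum_range_succ']
      have h3 : ∀ t, m + K - K * (t + 1) = m - K * t := by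
        intro t
        rw [mul_add, mul_one]
        omega
      simp only [h3, mul_zero, Nat.sub_zero]
      rw [mul_add]
      have h4 := P_succ_add m K
      omega

/-! ### `p(n)/P(n) → 0` -/

theorem sum_distinct (n : ℕ) : ∑ s ∈ pm n, s.toFinset.card ≤ P n := by
  rw [← Finset.card_sigma, ← card_tm]
  apply Finset.card_le_card_of_injOn (fun x : (Σ _ : Multiset ℕ, ℕ) => x.1.erase x.2)
  · rintro ⟨s, x⟩ hs
    rw [Finset.mem_coe, Finset.mem_sigma, mem_pm, Multiset.mem_toFinset] at hs
    obtain ⟨⟨h1, h2⟩, h3⟩ := hs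
    simp only at h1 h2 h3
    rw [Finset.mem_coe, mem_tm]
    refine ⟨fun y hy => h1 y (Multiset.mem_of_mem_erase hy), ?_⟩
    have := Multiset.sum_erase h3
    change (s.erase x).sum ≤ n
    omega
  · rintro ⟨s, x⟩ hs ⟨t, y⟩ ht hst
    rw [Finset.mem_coe, Finset.mem_sigma, mem_pm, Multiset.mem_toFinset] at hs ht
    simp only at hs ht hst
    have e1 := Multiset.sum_erase hs.2
    have e2 := Multiset.sum_erase ht.2
    have hxy : x = y := by
      rw [hst] at e1
      omega
    subst hxy
    have : s = t := by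
      rw [← Multiset.cons_erase hs.2, hst, Multiset.cons_erase ht.2]
    rw [this]

/-- Few distinct parts: polynomially many. -/
theorem few (n E : ℕ) : ((tm n).filter (fun s => s.toFinset.card ≤ E)).card ≤
    ((n + 1) * (n + 1)) ^ E := by
  induction E with
  | zero =>
    have : (tm n).filter (fun s => s.toFinset.card ≤ 0) ⊆ {0} := by
      intro s hs
      rw [Finset.mem_filter, Nat.le_zero, Finset.card_eq_zero, Multiset.toFinset_eq_empty] at hs
      rw [Finset.mem_singleton]
      exact hs.2
    have := Finset.card_le_card this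
    simpa using this
  | succ E ih =>
    have h1 : (tm n).filter (fun s => s.toFinset.card ≤ E + 1) ⊆
        (((tm n).filter (fun s => s.toFinset.card ≤ E)) ×ˢ (range (n + 1) ×ˢ range (n + 1))).image
          (fun x => x.1 + Multiset.replicate x.2.2 x.2.1) := by
      intro s hs
      rw [Finset.mem_filter, mem_tm] at hs
      obtain ⟨⟨h1, h2⟩, h3⟩ := hs
      rw [Finset.mem_image]
      by_cases h0 : s = 0
      · subst h0
        refine ⟨(0, (0, 0)), ?_, by simp⟩
        simp only [Finset.mem_product, Finset.mem_filter, mem_tm, Finset.mem_range]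
        simp
      · obtain ⟨x, hx⟩ := Multiset.exists_mem_of_ne_zero h0
        have hxs : x ≤ s.sum := Multiset.le_sum_of_mem hx
        have hdec : s.filter (fun y => y ≠ x) + Multiset.replicate (s.count x) x = s := by
          have := Multiset.filter_add_not (fun y => y ≠ x) s
          conv_rhs => rw [← this]
          congr 1
          have e : s.filter (fun y => ¬ y ≠ x) = s.filter (fun y => y = x) :=
            Multiset.filter_congr fun y _ => not_not
          rw [e, Multiset.filter_eq']
        have hsum := congrArg Multiset.sum hdec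
        rw [Multiset.sum_add, Multiset.sum_replicate, smul_eq_mul] at hsum
        have hxpos := h1 x hx
        have hcx : s.count x ≤ s.count x * x := Nat.le_mul_of_pos_right _ hxpos
        refine ⟨(s.filter (fun y => y ≠ x), (x, s.count x)), ?_, hdec⟩
        simp only [Finset.mem_product, Finset.mem_filter, mem_tm, Finset.mem_range]
        refine ⟨⟨⟨fun y hy => h1 y (Multiset.mem_of_mem_filter hy), by omega⟩, ?_⟩,
          by omega, by omega⟩
        have h4 : (s.filter (fun y => y ≠ x)).toFinset ⊆ s.toFinset.erase x := by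
          intro y hy
          rw [Multiset.mem_toFinset, Multiset.mem_filter] at hy
          rw [Finset.mem_erase, Multiset.mem_toFinset]
          exact ⟨hy.2, hy.1⟩
        have h5 := Finset.card_le_card h4
        rw [Finset.card_erase_of_mem (Multiset.mem_toFinset.2 hx)] at h5
        omega
    refine (Finset.card_le_card h1).trans (Finset.card_image_le.trans ?_)
    rw [Finset.card_product, Finset.card_product, Finset.card_range, pow_succ]
    exact Nat.mul_le_mul_right _ ih

/-- Exponential lower bound. -/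
theorem pp_ge (m n : ℕ) (h : m * (m + 3) ≤ 2 * n) : 2 ^ m ≤ pp n := by
  have h0 : (Ico 2 (m + 2)).powerset.card = 2 ^ m := by
    rw [Finset.card_powerset, Nat.card_Ico]; simp
  have hs : 2 * ∑ i ∈ Ico 2 (m + 2), i = m * (m + 3) := by
    clear h h0
    induction m with
    | zero => simp
    | succ m ih =>
      rw [Finset.sum_Ico_succ_top (by omega), mul_add, ih]
      ring
  rw [← h0]
  apply Finset.card_le_card_of_injOn
    (fun A => A.val + Multiset.replicate (n - ∑ i ∈ A, i) 1)
  · intro A hA
    rw [Finset.mem_coe, Finset.mem_powerset] at hA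
    rw [Finset.mem_coe, mem_pm]
    constructor
    · intro x hx
      rw [Multiset.mem_add] at hx
      rcases hx with hx | hx
      · have := Finset.mem_Ico.1 (hA hx)
        omega
      · rw [Multiset.eq_of_mem_replicate hx]; omega
    · have h1 : ∑ i ∈ A, i ≤ ∑ i ∈ Ico 2 (m + 2), i := Finset.sum_le_sum_of_subset hA
      have h2 : A.val.sum = ∑ i ∈ A, i := by
        change A.val.sum = (A.val.map (fun i => i)).sum
        rw [Multiset.map_id']
      rw [Multiset.sum_add, Multiset.sum_replicate, smul_eq_mul, h2]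
      omega
  · intro A hA B hB hAB
    rw [Finset.mem_coe, Finset.mem_powerset] at hA hB
    simp only at hAB
    ext i
    by_cases hi : i = 1
    · subst hi
      constructor
      · intro h; have := Finset.mem_Ico.1 (hA h); omega
      · intro h; have := Finset.mem_Ico.1 (hB h); omega
    · have h1 : ∀ C : Finset ℕ, ∀ k, i ∈ C.val + Multiset.replicate k 1 ↔ i ∈ C := by
        intro C k
        rw [Multiset.mem_add]
        constructor
        · rintro (h | h)
          · exact h
          · exact absurd (Multiset.eq_of_mem_replicate h) hi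
        · intro h; left; exact h
      rw [← h1 A, hAB, h1 B]

theorem P_lower (n E : ℕ) : (E + 1) * pp n ≤ P n + (E + 1) * ((n + 1) * (n + 1)) ^ E := by
  have h1 := sum_distinct n
  have h2 : ((pm n).filter (fun s => s.toFinset.card ≤ E)).card ≤ ((n + 1) * (n + 1)) ^ E := by
    refine (Finset.card_le_card ?_).trans (few n E)
    apply Finset.filter_subset_filter
    intro s hs
    rw [mem_pm] at hs
    rw [mem_tm]
    exact ⟨hs.1, hs.2.le⟩
  have h3 := Finset.card_filter_add_card_filter_not (s := pm n) (fun s => s.toFinset.card ≤ E)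
  have h4 : (E + 1) * ((pm n).filter (fun s => ¬ s.toFinset.card ≤ E)).card ≤
      ∑ s ∈ pm n, s.toFinset.card := by
    calc (E + 1) * ((pm n).filter (fun s => ¬ s.toFinset.card ≤ E)).card
        = ∑ _s ∈ (pm n).filter (fun s => ¬ s.toFinset.card ≤ E), (E + 1) := by
          rw [Finset.sum_const, smul_eq_mul, mul_comm]
      _ ≤ ∑ s ∈ (pm n).filter (fun s => ¬ s.toFinset.card ≤ E), s.toFinset.card := by
          apply Finset.sum_le_sum
          intro s hs
          rw [Finset.mem_filter] at hs
          omega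
      _ ≤ ∑ s ∈ pm n, s.toFinset.card :=
          Finset.sum_le_sum_of_subset (Finset.filter_subset _ _)
  have h5 : pp n = (pm n).card := rfl
  rw [h5, ← h3, mul_add]
  have h6 := Nat.mul_le_mul_left (E + 1) h2
  omega

theorem eventually_big (E : ℕ) : ∀ᶠ n in atTop, (E + 1) * ((n + 1) * (n + 1)) ^ E ≤ pp n := by
  have h1 : Tendsto (fun n : ℕ => ((n : ℝ)) ^ (4 * E) / (2 : ℝ) ^ n) atTop (nhds 0) :=
    tendsto_pow_const_div_const_pow_of_one_lt (4 * E) (by norm_num)
  have h2 : ∀ᶠ n : ℕ in atTop, ((n : ℝ)) ^ (4 * E) / (2 : ℝ) ^ n < 1 / (2 * (E + 1)) := by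
    have hpos : (0 : ℝ) < 1 / (2 * (E + 1)) := by positivity
    exact (tendsto_order.1 h1).2 _ hpos
  have h3 : Tendsto (fun n : ℕ => Nat.sqrt n + 1) atTop atTop := by
    apply Filter.tendsto_atTop_atTop.2
    intro b
    refine ⟨b * b, fun a ha => ?_⟩
    have : b ≤ Nat.sqrt a := Nat.le_sqrt.2 ha
    omega
  have h4 := h3.eventually h2
  filter_upwards [h4, eventually_ge_atTop 9] with n hn hn9
  set m := Nat.sqrt n with hm
  have hm3 : 3 ≤ m := Nat.le_sqrt.2 (by omega)
  have hmn : m * m ≤ n := Nat.sqrt_le n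
  have hnm : n < (m + 1) * (m + 1) := Nat.lt_succ_sqrt n
  have h5 : 2 ^ m ≤ pp n := pp_ge m n (by nlinarith)
  have h6 : ((n + 1) * (n + 1)) ^ E ≤ (m + 1) ^ (4 * E) := by
    calc ((n + 1) * (n + 1)) ^ E ≤ (((m + 1) * (m + 1)) * ((m + 1) * (m + 1))) ^ E :=
          Nat.pow_le_pow_left (Nat.mul_le_mul hnm hnm) E
      _ = (m + 1) ^ (4 * E) := by
          rw [show ((m + 1) * (m + 1)) * ((m + 1) * (m + 1)) = (m + 1) ^ 4 by ring, ← pow_mul]
  have h7 : ((m + 1 : ℕ) : ℝ) ^ (4 * E) * (2 * (E + 1)) < 2 ^ (m + 1) := by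
    rw [div_lt_div_iff₀ (by positivity) (by positivity)] at hn
    linarith
  have h8 : (m + 1) ^ (4 * E) * (2 * (E + 1)) < 2 ^ (m + 1) := by exact_mod_cast h7
  rw [pow_succ 2 m] at h8
  have h9 : (E + 1) * ((n + 1) * (n + 1)) ^ E ≤ (E + 1) * (m + 1) ^ (4 * E) :=
    Nat.mul_le_mul_left _ h6
  have h10 : (m + 1) ^ (4 * E) * (2 * (E + 1)) = 2 * ((E + 1) * (m + 1) ^ (4 * E)) := by ring
  omega

theorem pp_div_P (E : ℕ) : ∀ᶠ n in atTop, E * pp n ≤ P n := by
  filter_upwards [eventually_big E] with n hn
  have := P_lower n E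
  rw [add_mul, one_mul] at this
  omega

/-! ### Conclusion -/

open Classical in
theorem S'_bound (n K : ℕ) (hK : 3 ≤ K) :
    K * S' n ≤ K * (K + 2) * pp n + 2 * P n := by
  have h1 : (tm n).filter Assoc ⊆
      ((range K).biUnion fun j =>
        (tm n).filter (fun s => ∑ i ∈ Ico 2 (j + 1), s.count i + j = s.count 1 + 2)) ∪
      (tm n).filter (fun s => ∑ i ∈ Ico 2 K, s.count i ≤ s.count 1) := by
    intro s hs
    rw [Finset.mem_filter] at hs
    obtain ⟨hs1, hs2⟩ := hs
    obtain ⟨j, hj2, hj⟩ := assoc_struct hs2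
    rw [Finset.mem_union]
    rcases Nat.lt_or_ge j K with h | h
    · left
      rw [Finset.mem_biUnion]
      exact ⟨j, Finset.mem_range.2 h, Finset.mem_filter.2 ⟨hs1, hj⟩⟩
    · right
      rw [Finset.mem_filter]
      refine ⟨hs1, ?_⟩
      have : ∑ i ∈ Ico 2 K, s.count i ≤ ∑ i ∈ Ico 2 (j + 1), s.count i := by
        apply Finset.sum_le_sum_of_subset
        exact Finset.Ico_subset_Ico le_rfl (by omega)
      omega
  rw [S'_eq]
  have h2 := Finset.card_le_card h1
  have h3 := Finset.card_union_le ((range K).biUnion fun j =>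
        (tm n).filter (fun s => ∑ i ∈ Ico 2 (j + 1), s.count i + j = s.count 1 + 2))
      ((tm n).filter (fun s => ∑ i ∈ Ico 2 K, s.count i ≤ s.count 1))
  have h4 : ((range K).biUnion fun j =>
        (tm n).filter (fun s => ∑ i ∈ Ico 2 (j + 1), s.count i + j = s.count 1 + 2)).card ≤
        K * pp n := by
    refine Finset.card_biUnion_le.trans ?_
    calc ∑ j ∈ range K, ((tm n).filter
          (fun s => ∑ i ∈ Ico 2 (j + 1), s.count i + j = s.count 1 + 2)).card
        ≤ ∑ _j ∈ range K, pp n := Finset.sum_le_sum fun j _ => caseA n j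
      _ = K * pp n := by rw [Finset.sum_const, Finset.card_range, smul_eq_mul]
  have h5 := caseB n K hK
  rw [← Finset.mul_sum] at h5
  have h6 := sumQ K (by omega) n
  have h7 : K * ((tm n).filter (fun s => ∑ i ∈ Ico 2 K, s.count i ≤ s.count 1)).card ≤
      2 * (K * pp n) + 2 * P n := by
    calc _ ≤ K * (2 * ∑ t ∈ range (n / K + 1), pp (n - K * t)) := Nat.mul_le_mul_left K h5
      _ = 2 * (K * ∑ t ∈ range (n / K + 1), pp (n - K * t)) := by ring
      _ ≤ _ := by omega
  calc K * ((tm n).filter Assoc).card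
      ≤ K * (K * pp n + ((tm n).filter
          (fun s => ∑ i ∈ Ico 2 K, s.count i ≤ s.count 1)).card) := by
        apply Nat.mul_le_mul_left
        omega
    _ = K * (K * pp n) + K * ((tm n).filter
          (fun s => ∑ i ∈ Ico 2 K, s.count i ≤ s.count 1)).card := by ring
    _ ≤ K * (K * pp n) + (2 * (K * pp n) + 2 * P n) := Nat.add_le_add_left h7 _
    _ = K * (K + 2) * pp n + 2 * P n := by ring

/-- **Full positive answer to Q1.** -/
theorem result : Tendsto (fun n => (S' n : ℝ) / (P n : ℝ)) atTop (nhds 0) := by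
  rw [Metric.tendsto_atTop]
  intro ε hε
  obtain ⟨K, hK⟩ := exists_nat_gt (4 / ε)
  set K' := K + 3 with hK'
  have hK3 : 3 ≤ K' := by omega
  have hKpos : (0 : ℝ) < K' := by positivity
  have h1 : 2 / (K' : ℝ) < ε / 2 := by
    have : 4 / ε < (K' : ℝ) := hK.trans (by rw [hK']; push_cast; linarith)
    rw [div_lt_iff₀ hε] at this
    rw [div_lt_div_iff₀ hKpos (by norm_num)]
    linarith
  obtain ⟨E, hE⟩ := exists_nat_gt (4 * ((K' : ℝ) + 2) / ε)
  obtain ⟨n₀, hn₀⟩ := Filter.eventually_atTop.1 (pp_div_P E)
  refine ⟨n₀, fun n hn => ?_⟩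
  have hP : (0 : ℝ) < P n := by
    have : 0 < P n := by
      rw [← card_tm, Finset.card_pos]
      exact ⟨0, mem_tm.2 ⟨fun x hx => absurd hx (Multiset.notMem_zero x), by simp⟩⟩
    exact_mod_cast this
  have h2 := S'_bound n K' hK3
  have h3 := hn₀ n hn
  have h2' : (K' : ℝ) * S' n ≤ K' * (K' + 2) * pp n + 2 * P n := by exact_mod_cast h2
  have h3' : (E : ℝ) * pp n ≤ P n := by exact_mod_cast h3
  have h4 : ((K' : ℝ) + 2) * pp n ≤ ε / 4 * P n := by
    rw [div_lt_iff₀ hε] at hE
    have hpp : (0 : ℝ) ≤ pp n := by positivity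
    nlinarith
  have h5 : (S' n : ℝ) ≤ (K' + 2) * pp n + 2 / K' * P n := by
    have : (K' : ℝ) * S' n ≤ K' * ((K' + 2) * pp n + 2 / K' * P n) := by
      have e : (K' : ℝ) * ((K' + 2) * pp n + 2 / K' * P n) =
          K' * (K' + 2) * pp n + 2 * P n := by
        field_simp
      rw [e]; exact h2'
    exact le_of_mul_le_mul_left this hKpos
  have h6 : (S' n : ℝ) / P n < ε := by
    rw [div_lt_iff₀ hP]
    have h7 : 2 / (K' : ℝ) * P n < ε / 2 * P n := mul_lt_mul_of_pos_right h1 hP
    nlinarith
  rw [Real.dist_eq, sub_zero, abs_of_nonneg (by positivity)]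
  exact h6

end Pool.Agent.Results.MP_8c5ed8_co.ProportionZero
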